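import Pool.Agent.Helper79.TL.Psl
import Pool.Agent.Helper31.BrauerDefs

/-!
# TL-S6
-/

set_option autoImplicit false

open Module Matrix
open scoped MatrixGroups
open Pool.Agent.Helper31.Brauer

namespace Pool.Agent.Helper79.TL.S6

/-- TL-S6 -/
theorem exists_system3 : ∃ (F : Type) (_ : Field F) (_ : CharP F 3) (red : AlgInt →+* F),
    Function.Surjective red := by
  have hne : (Ideal.span {(3 : AlgInt)}) ≠ ⊤ := by
    rw [Ne, Ideal.span_singleton_eq_top]
    intro hu
    obtain ⟨y, hy⟩ := hu.exists_left_inv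
    have hy' : (y : ℂ) * 3 = 1 := by
      have h := congrArg (Subtype.val) hy
      have h2 : ((3 : AlgInt) : ℂ) = 3 := rfl
      rw [← h2]
      exact h
    have hy2 : (y : ℂ) = algebraMap ℚ ℂ (1 / 3) := by
      have h2 : (3 : ℂ) ≠ 0 := three_ne_zero
      field_simp at hy' ⊢
      rw [map_div₀]
      simp only [map_one, map_ofNat]
      field_simp
      exact hy'
    have hint : IsIntegral ℤ ((1 / 3 : ℚ)) := by
      have h1 : IsIntegral ℤ (y : ℂ) := y.2
      rw [hy2] at h1
      exact (isIntegral_algebraMap_iff (algebraMap ℚ ℂ).injective).mp h1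
    obtain ⟨n, hn⟩ := IsIntegrallyClosed.isIntegral_iff.mp hint
    have h3 : (n : ℚ) = 1 / 3 := by simpa using hn
    have h4 : (3 * n : ℚ) = 1 := by rw [h3]; norm_num
    have h5 : 3 * n = 1 := by exact_mod_cast h4
    omega
  obtain ⟨M, hM, hle⟩ := Ideal.exists_le_maximal _ hne
  let _ : Field (AlgInt ⧸ M) := Ideal.Quotient.field M
  have h2 : ((3 : ℕ) : AlgInt ⧸ M) = 0 := by
    have : (3 : AlgInt) ∈ M := hle (Ideal.mem_span_singleton_self _)
    have h := Ideal.Quotient.eq_zero_iff_mem.mpr this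
    rw [map_ofNat] at h
    exact_mod_cast h
  have hchar : CharP (AlgInt ⧸ M) 3 := by
    have := CharP.exists (AlgInt ⧸ M)
    obtain ⟨p, hp⟩ := this
    have hd : p ∣ 3 := (CharP.cast_eq_zero_iff (AlgInt ⧸ M) p 3).mp h2
    rcases (Nat.dvd_prime Nat.prime_three).mp hd with h | h
    · subst h
      exact absurd hp (by
        intro hp
        exact CharP.char_ne_one (AlgInt ⧸ M) 1 rfl)
    · subst h; exact hp
  exact ⟨AlgInt ⧸ M, inferInstance, hchar, Ideal.Quotient.mk M, Ideal.Quotient.mk_surjective⟩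

/-- TL-S6 -/
theorem card_F4 : Nat.card F4 = 4 := by
  have : Nat.card F4 = Nat.card (Fin 4) := rfl
  rw [this, Nat.card_eq_fintype_card, Fintype.card_fin]

end Pool.Agent.Helper79.TL.S6
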